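import Mathlib
import Pool.Agent.Run7.h906.SepB

namespace Pool.Agent.Results.MP_9b2cf8_gt.Certificates

open Pool.Agent.Run7.h906

/-- A certificate `Crt w m` proves that every word of the free knot of `w` has at least `m`
letters. If `m` is the number of letters of `w`, then `w` is minimal, and every word of the
same length in its free knot is obtained from `w` by moves inside the Gauss words of some bounded
height that keep the number of top chords. The word `0102134356572746`, which has two even
chords, has such a certificate. -/
theorem result :
    (∀ (w : List ℕ) (m : ℕ), Crt w m → ∀ w', FreeEq w w' →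
      m ≤ w'.length ∧ (m = w.length → w'.length = w.length → ∃ g, TEq g w w')) ∧
    (∀ w', FreeEq [0, 1, 0, 2, 1, 3, 4, 3, 5, 6, 5, 7, 2, 7, 4, 6] w' → 16 ≤ w'.length) :=
  ⟨fun _ _ h => crt_bound h, fun w' h => (crt_bound crt_example w' h).1⟩

end Pool.Agent.Results.MP_9b2cf8_gt.Certificates
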