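import Mathlib
import Pool.Agent.Run7.h906.Final

namespace Pool.Agent.Results.MP_9b2cf8_gt.ParityHeight

open Pool.Agent.Run7.h906

/-- Let `w` be a Gauss word of height at most `h`. A word of height at most `h` represents the
same free knot as `w` if and only if it is obtained from `w` by second and third moves through
words of height at most `h`. If an arbitrary word `w'` represents the same free knot as `w`,
then some word `v` obtained from `w` by such moves has exactly the chords of `w'` that do not
survive `h` rounds of deleting odd chords. -/
theorem result (h : ℕ) (w w' : List ℕ) (hw : Gauss w) (hh : strip^[h] w = []) :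
    (strip^[h] w' = [] → (FreeEq w w' ↔ HEq h w w')) ∧
    (FreeEq w w' → ∃ v, HEq h w v ∧
      v.Perm (w'.filter (fun a => decide (a ∉ strip^[h] w')))) := by
  refine ⟨fun hn => ⟨fun heq => ?_, HEq_free⟩, fun heq => ?_⟩
  · obtain ⟨_, _, _, h3⟩ := height_general h w w' hw hh heq
    exact h3 hn
  · obtain ⟨v, h1, h2, _⟩ := height_general h w w' hw hh heq
    exact ⟨v, h1, h2⟩

end Pool.Agent.Results.MP_9b2cf8_gt.ParityHeight
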