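import Mathlib
import Pool.Agent.Run7.h906.SmooI

namespace Pool.Agent.Results.MP_9b2cf8_gt.Smoothings

open Pool.Agent.Run7.h906

/-- Let `w` be a Gauss word of height at most `g + 1` such that no word obtained from `w` inside
this class, by moves that keep the number of top chords, contains a bigon of top chords. Then
the smoothings of `w` at its top chords are well defined free knots that depend only on the
free knot of `w`: for every word `w'` of the same free knot with height at most `g + 1` and as
many top chords, some word `z` obtained from `w` by a cyclic shift and a renaming, possibly
after reversal, has the same core as `w'`, and every sequence of smoothings at letters of the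
core turns `z` and `w'` into words of one free knot. If the sequence removes all letters of the
core, the two results are equivalent inside the words of height at most `g`. -/
theorem result (g : ℕ) (w w' : List ℕ) (hw : Gauss w) (hh : strip^[g + 1] w = [])
    (hirr : ∀ v, TEq g w v → ¬ TopBigon g v) (heq : FreeEq w w')
    (hh' : strip^[g + 1] w' = []) (hlen : (strip^[g] w').length = (strip^[g] w).length) :
    ∃ z, Iso w z ∧ strip^[g] z = strip^[g] w' ∧
      ∀ os : List (ℕ × ℕ), (∀ o ∈ os, o.1 ∈ strip^[g] w' ∧ o.2 ∈ strip^[g] w') →
        FreeEq (acts os z) (acts os w') ∧
        (acts os (strip^[g] w') = [] → HEq g (acts os z) (acts os w')) :=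
  acts_general hw hh hirr heq hh' hlen

end Pool.Agent.Results.MP_9b2cf8_gt.Smoothings
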