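import Mathlib
import Pool.Agent.Run7.h906.TopE
import Pool.Agent.Run7.h906.SmooJ

namespace Pool.Agent.Results.MP_9b2cf8_gt.TopChords

open Pool.Agent.Run7.h906

/-- Let `w` be a Gauss word of height at most `g + 1` such that no word obtained from `w` inside
this class, by moves that keep the number of top chords (chords of level `g + 1`), contains a
bigon of top chords. Then every word `w'` of the same free knot has at least as many chords of
level exactly `g + 1` as `w`, and some word `v` obtained from `w` by such moves has exactly the
chords of `w'` outside a set of chords of level greater than `g`. If the numbers of chords of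
level exactly `g + 1` are equal, then `v` can be chosen to have exactly the chords of `w'` of
level at most `g + 1`; and if moreover `w'` has height at most `g + 1`, then `w'` itself is
obtained from `w` by such moves. -/
theorem result (g : ℕ) (w w' : List ℕ) (hw : Gauss w) (hh : strip^[g + 1] w = [])
    (hirr : ∀ v, TEq g w v → ¬ TopBigon g v) (heq : FreeEq w w') :
    (strip^[g] w).length + (strip^[g + 1] w').length ≤ (strip^[g] w').length ∧
    (∃ (v : List ℕ) (S : Finset ℕ), TEq g w v ∧ (∀ a ∈ S, a ∈ strip^[g] w') ∧
      v.Perm (w'.filter (fun a => decide (a ∉ S)))) ∧
    ((strip^[g] w).length + (strip^[g + 1] w').length = (strip^[g] w').length →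
      ∃ v, TEq g w v ∧ v.Perm (w'.filter (fun a => decide (a ∉ strip^[g + 1] w')))) ∧
    (strip^[g + 1] w' = [] → (strip^[g] w).length = (strip^[g] w').length → TEq g w w') :=
  have h := top_general hw hh hirr heq
  ⟨h.1, top_contains hw hh hirr heq, h.2.1, h.2.2⟩

end Pool.Agent.Results.MP_9b2cf8_gt.TopChords
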